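import Pool.Agent.Helper60.PlzA.Goals

/-!
# Project PLA, packet FIND (MP_8e7d5e_co): the minimal counterexample
-/

set_option autoImplicit false

namespace Pool.Agent.Helper75.PlzA

open Finset Pool.Agent.Helper93.Plz Pool.Agent.Helper60.PlzA

open scoped Classical

section comap

variable {V V' : Type} {G : SimpleGraph V} {f : V' → V}

theorem cn_comap (hf : Function.Injective f) (B : Set V') :
    Cn (G.comap f) B ↔ Cn G (f '' B) := by
  constructor
  · rintro ⟨hne, h⟩
    refine ⟨hne.image f, fun T hT hTn hTB => ?_⟩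
    have hT' : f '' (f ⁻¹' T) = T :=
      Set.image_preimage_eq_of_subset (hT.trans (Set.image_subset_range f B))
    have h1 : f ⁻¹' T ⊆ B := fun x hx => by
      obtain ⟨y, hy, hyx⟩ := hT hx
      rwa [← hf hyx]
    have h2 : (f ⁻¹' T).Nonempty := by
      rw [← hT'] at hTn
      exact Set.image_nonempty.1 hTn
    have h3 : f ⁻¹' T ≠ B := fun h4 => hTB (by rw [← hT', h4])
    obtain ⟨x, hx, y, hy, hyT, hxy⟩ := h _ h1 h2 h3
    exact ⟨f x, hx, f y, Set.mem_image_of_mem f hy, hyT, hxy⟩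
  · rintro ⟨hne, h⟩
    refine ⟨Set.image_nonempty.1 hne, fun T hT hTn hTB => ?_⟩
    obtain ⟨x, hx, y, hy, hyT, hxy⟩ := h (f '' T) (Set.image_mono hT) (hTn.image f)
      (fun h4 => hTB (Set.image_injective.2 hf h4))
    obtain ⟨x', hx', rfl⟩ := hx
    obtain ⟨y', hy', rfl⟩ := hy
    exact ⟨x', hx', y', hy', fun h5 => hyT (Set.mem_image_of_mem f h5), hxy⟩

theorem minorIn_comap {W : Type} {K : SimpleGraph W} (hf : Function.Injective f) (A : Set V') :
    MinorIn K (G.comap f) A ↔ MinorIn K G (f '' A) := by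
  constructor
  · rintro ⟨g, h1, h2, h3, h4⟩
    refine ⟨fun w => f '' g w, fun w => Set.image_mono (h1 w), fun w => (cn_comap hf _).1 (h2 w),
      fun w w' hw => ?_, fun w w' hw => ?_⟩
    · exact (Set.disjoint_image_iff hf).2 (h3 w w' hw)
    · obtain ⟨x, hx, y, hy, hxy⟩ := h4 w w' hw
      exact ⟨f x, Set.mem_image_of_mem f hx, f y, Set.mem_image_of_mem f hy, hxy⟩
  · rintro ⟨g, h1, h2, h3, h4⟩
    have hg : ∀ w, f '' (f ⁻¹' (g w)) = g w := fun w =>
      Set.image_preimage_eq_of_subset ((h1 w).trans (Set.image_subset_range f A))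
    refine ⟨fun w => f ⁻¹' (g w), fun w x hx => ?_, fun w => (cn_comap hf _).2 ?_,
      fun w w' hw => ?_, fun w w' hw => ?_⟩
    · obtain ⟨y, hy, hyx⟩ := h1 w hx
      rwa [← hf hyx]
    · rw [hg]
      exact h2 w
    · exact (h3 w w' hw).preimage f
    · obtain ⟨x, hx, y, hy, hxy⟩ := h4 w w' hw
      rw [← hg w] at hx
      rw [← hg w'] at hy
      obtain ⟨x', hx', rfl⟩ := hx
      obtain ⟨y', hy', rfl⟩ := hy
      exact ⟨x', hx', y', hy', hxy⟩

theorem plS_comap (hf : Function.Injective f) (A : Set V') :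
    PlS (G.comap f) A ↔ PlS G (f '' A) := by
  unfold PlS
  rw [minorIn_comap hf, minorIn_comap hf]

end comap

section sums

variable {V : Type} [Fintype V]

omit [Fintype V] in
theorem eb_eq (G : SimpleGraph V) (X Y : Finset V) :
    (eb G X Y : ℝ) = ∑ x ∈ X, ∑ y ∈ Y, (if G.Adj x y then (1 : ℝ) else 0) := by
  unfold eb
  rw [Finset.card_filter, Nat.cast_sum, Finset.sum_product]
  refine Finset.sum_congr rfl fun x _ => Finset.sum_congr rfl fun y _ => ?_
  split_ifs <;> simp

theorem dgr_eq (G : SimpleGraph V) (x : V) :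
    (dgr G x : ℝ) = ∑ y, (if G.Adj x y then (1 : ℝ) else 0) := by
  unfold dgr nbs
  rw [Finset.card_filter, Nat.cast_sum]
  refine Finset.sum_congr rfl fun y _ => ?_
  split_ifs <;> simp

theorem UU_comap {V' : Type} [Fintype V'] (G : SimpleGraph V) (f : V' ↪ V) (t : ℕ)
    (Z : Finset V') : UU (G.comap f) t Z = UU G t (Z.map f) := by
  unfold UU e2
  rw [eb_eq, eb_eq, Finset.card_map, Finset.sum_map]
  congr 1
  refine Finset.sum_congr rfl fun x _ => ?_
  rw [Finset.sum_map]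
  rfl

/-- the potential of the complement of `C` -/
theorem UU_compl (G : SimpleGraph V) (t : ℕ) (C : Finset V) :
    UU G t univ - UU G t Cᶜ = (e2 G C : ℝ) + 2 * ∑ w ∈ C, ((t : ℝ) - dgr G w) := by
  set A : V → V → ℝ := fun x y => if G.Adj x y then (1 : ℝ) else 0 with hA
  have hsym : ∀ x y, A x y = A y x := fun x y => by
    simp only [hA, G.adj_comm x y]
  have h1 : (e2 G univ : ℝ) = ∑ x, ∑ y, A x y := eb_eq G _ _
  have h2 : (e2 G Cᶜ : ℝ) = ∑ x ∈ Cᶜ, ∑ y ∈ Cᶜ, A x y := eb_eq G _ _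
  have h3 : (e2 G C : ℝ) = ∑ x ∈ C, ∑ y ∈ C, A x y := eb_eq G _ _
  have h4 : ∀ x, ∑ y, A x y = ∑ y ∈ C, A x y + ∑ y ∈ Cᶜ, A x y := fun x =>
    (Finset.sum_add_sum_compl C _).symm
  have h5 : ∑ x, ∑ y, A x y = ∑ x ∈ C, ∑ y, A x y + ∑ x ∈ Cᶜ, ∑ y, A x y :=
    (Finset.sum_add_sum_compl C _).symm
  have h6 : ∑ x ∈ Cᶜ, ∑ y, A x y = ∑ x ∈ Cᶜ, ∑ y ∈ C, A x y + ∑ x ∈ Cᶜ, ∑ y ∈ Cᶜ, A x y := by
    rw [← Finset.sum_add_distrib]
    exact Finset.sum_congr rfl fun x _ => h4 x
  have h7 : ∑ x ∈ C, ∑ y, A x y = ∑ x ∈ C, ∑ y ∈ C, A x y + ∑ x ∈ C, ∑ y ∈ Cᶜ, A x y := by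
    rw [← Finset.sum_add_distrib]
    exact Finset.sum_congr rfl fun x _ => h4 x
  have h8 : ∑ x ∈ Cᶜ, ∑ y ∈ C, A x y = ∑ x ∈ C, ∑ y ∈ Cᶜ, A x y := by
    rw [Finset.sum_comm]
    exact Finset.sum_congr rfl fun x _ => Finset.sum_congr rfl fun y _ => hsym _ _
  have h9 : ∑ w ∈ C, ((t : ℝ) - dgr G w) = t * (C.card : ℝ) - ∑ x ∈ C, ∑ y, A x y := by
    rw [Finset.sum_sub_distrib, Finset.sum_const, nsmul_eq_mul, mul_comm]
    congr 1
    exact Finset.sum_congr rfl fun x _ => dgr_eq G x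
  have h10 : ((univ : Finset V).card : ℝ) = C.card + (Cᶜ : Finset V).card := by
    rw [Finset.card_univ, ← Finset.card_add_card_compl C]
    push_cast
    ring
  unfold UU
  rw [h1, h2, h3, h9, h5, h6, h8, h10, h7]
  ring

end sums

/-- a finite set of vertices is deficient -/
def Dfn {V : Type} [Fintype V] (t : ℕ) (c : ℝ) (G : SimpleGraph V) (S : Finset V) : Prop :=
  ∀ P ⊆ S, PlS G (P : Set V) → ∃ Z ⊆ S, (t : ℝ) ^ 2 * P.card < c * UU G t Z

theorem find_core (h1 : S_GLUE) {V' : Type} [Fintype V'] (t : ℕ) (c : ℝ) (hc : 0 < c)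
    (G' : SimpleGraph V') (hd1 : Dfn t c G' univ)
    (hd2 : ∀ A : Finset V', A ≠ univ → ¬ Dfn t c G' A) :
    Nonempty V' ∧ (∀ Z : Finset V', UU G' t Z ≤ UU G' t univ) ∧
      (∀ P : Finset V', PlS G' (P : Set V') → (t : ℝ) ^ 2 * P.card < c * UU G' t univ) ∧
      ∀ T : Finset V', T.Nonempty → PlS G' (T : Set V') →
        (t : ℝ) ^ 2 * T.card < c * (e2 G' (cnb G' T) + Dfc G' t T) := by
  -- the potential is maximal at `univ`
  have hmax : ∀ Z : Finset V', UU G' t Z ≤ UU G' t univ := by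
    obtain ⟨Z0, _, hZ0⟩ := Finset.exists_max_image (univ : Finset (Finset V')) (UU G' t)
      ⟨univ, Finset.mem_univ _⟩
    have h3 : Dfn t c G' Z0 := by
      intro P _ hP
      obtain ⟨Z, _, h⟩ := hd1 P (Finset.subset_univ _) hP
      refine ⟨Z0, Finset.Subset.refl _, lt_of_lt_of_le h ?_⟩
      exact mul_le_mul_of_nonneg_left (hZ0 Z (Finset.mem_univ _)) hc.le
    have h4 : Z0 = univ := by
      by_contra h5
      exact hd2 Z0 h5 h3
    intro Z
    have := hZ0 Z (Finset.mem_univ _)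
    rwa [h4] at this
  have hpl : ∀ P : Finset V', PlS G' (P : Set V') → (t : ℝ) ^ 2 * P.card < c * UU G' t univ := by
    intro P hP
    obtain ⟨Z, _, h⟩ := hd1 P (Finset.subset_univ _) hP
    exact lt_of_lt_of_le h (mul_le_mul_of_nonneg_left (hmax Z) hc.le)
  refine ⟨?_, hmax, hpl, ?_⟩
  · by_contra hne
    rw [not_nonempty_iff] at hne
    have h3 := hpl ∅ (by rw [Finset.coe_empty]; exact plS_empty G')
    have h4 : UU G' t univ = 0 := by
      unfold UU e2 eb
      simp [Finset.univ_eq_empty]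
    rw [h4] at h3
    simp at h3
  · intro T hT hTp
    have hTC : T ⊆ cnb G' T := fun x hx => by
      unfold cnb
      simp [hx]
    have h3 : (cnb G' T)ᶜ ≠ univ := by
      intro h4
      obtain ⟨x, hx⟩ := hT
      have : x ∈ (cnb G' T)ᶜ := by rw [h4]; exact Finset.mem_univ _
      exact (Finset.mem_compl.1 this) (hTC hx)
    have h4 := hd2 _ h3
    unfold Dfn at h4
    push Not at h4
    obtain ⟨P, hP, hPp, h5⟩ := h4
    have h6 := h5 _ (Finset.Subset.refl _)
    have hdis : Disjoint T P := by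
      rw [Finset.disjoint_left]
      intro x hx hxP
      exact (Finset.mem_compl.1 (hP hxP)) (hTC hx)
    have h7 : PlS G' ((T ∪ P : Finset V') : Set V') := by
      rw [Finset.coe_union]
      refine h1 V' G' T P ?_ ?_ hTp hPp
      · rw [← Finset.coe_inter, Finset.disjoint_iff_inter_eq_empty.1 hdis, Finset.coe_empty]
        exact Set.subsingleton_empty
      · intro x hx y hy hxy
        exfalso
        apply Finset.mem_compl.1 (hP hy)
        unfold cnb
        rw [Finset.mem_filter]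
        exact ⟨Finset.mem_univ _, Or.inr ⟨x, hx, hxy⟩⟩
    have h8 := hpl _ h7
    rw [Finset.card_union_of_disjoint hdis] at h8
    push_cast at h8
    have h9 := UU_compl G' t (cnb G' T)
    have h10 : (e2 G' (cnb G' T) : ℝ) + Dfc G' t T = UU G' t univ - UU G' t (cnb G' T)ᶜ := by
      rw [h9]
      rfl
    rw [h10, mul_sub]
    nlinarith [h8, h6]

theorem find (h1 : S_GLUE) : S_FIND := by
  intro t c ht hc hcov
  -- a deficient set
  obtain ⟨V, iV, G, S0, hS0⟩ : ∃ (V : Type) (_ : Fintype V) (G : SimpleGraph V) (S : Finset V),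
      Dfn t c G S := by
    by_contra hcon
    push Not at hcon
    apply hcov
    intro V iV G S
    have := hcon V iV G S
    unfold Dfn at this
    push Not at this
    obtain ⟨P, hP, hPl, h⟩ := this
    exact ⟨P, hP, hPl, h⟩
  obtain ⟨S, hS, hmin⟩ := Finset.exists_min_image (univ.filter fun S : Finset V => Dfn t c G S)
    Finset.card ⟨S0, by simp [hS0]⟩
  have hSd : Dfn t c G S := (Finset.mem_filter.1 hS).2
  have hSmin : ∀ A : Finset V, Dfn t c G A → S.card ≤ A.card := fun A hA =>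
    hmin A (Finset.mem_filter.2 ⟨Finset.mem_univ _, hA⟩)
  -- transfer to the induced graph
  let V' : Type := {x : V // x ∈ S}
  let f : V' ↪ V := Function.Embedding.subtype _
  let G' : SimpleGraph V' := G.comap f
  have hinj : Function.Injective f := f.injective
  have hmap : ∀ A : Finset V, A ⊆ S → ∃ A' : Finset V', A'.map f = A := by
    intro A hA
    refine ⟨A.subtype _, ?_⟩
    rw [Finset.subtype_map, Finset.filter_eq_self]
    exact fun x hx => hA hx
  have hsub : ∀ A : Finset V', A.map f ⊆ S := by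
    intro A x hx
    obtain ⟨y, _, rfl⟩ := Finset.mem_map.1 hx
    exact y.2
  have hcardS : Fintype.card V' = S.card := Fintype.card_coe S
  have hPl : ∀ A : Finset V', PlS G' (A : Set V') ↔ PlS G (A.map f : Set V) := by
    intro A
    rw [plS_comap hinj, Finset.coe_map]
  have hU : ∀ A : Finset V', UU G' t A = UU G t (A.map f) := fun A => UU_comap G f t A
  have hd1 : Dfn t c G' univ := by
    intro P _ hP
    obtain ⟨Z, hZ, h⟩ := hSd (P.map f) (hsub P) ((hPl P).1 hP)
    obtain ⟨Z', rfl⟩ := hmap Z hZ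
    refine ⟨Z', Finset.subset_univ _, ?_⟩
    rw [hU]
    rwa [Finset.card_map] at h
  have hd2 : ∀ A : Finset V', A ≠ univ → ¬ Dfn t c G' A := by
    intro A hA hD
    have hlt : A.card < S.card := by
      rw [← hcardS, ← Finset.card_univ]
      exact Finset.card_lt_card (Finset.ssubset_univ_iff.2 hA)
    have h3 : Dfn t c G (A.map f) := by
      intro P hP hPp
      obtain ⟨P', rfl⟩ := hmap P (hP.trans (hsub A))
      have h4 : P' ⊆ A := Finset.map_subset_map.1 hP
      obtain ⟨Z, hZ, h⟩ := hD P' h4 ((hPl P').2 hPp)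
      refine ⟨Z.map f, Finset.map_subset_map.2 hZ, ?_⟩
      rw [← hU, Finset.card_map]
      exact h
    have h5 := hSmin _ h3
    rw [Finset.card_map] at h5
    omega
  exact ⟨V', inferInstance, G', find_core h1 t c hc G' hd1 hd2⟩

end Pool.Agent.Helper75.PlzA
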